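import Mathlib

/-!
# The image of the virtual integral Burau representation

For `n : ℕ` we consider the virtual braid group on `n + 1` strands (so that its classical and
virtual generators are indexed by `Fin n`), define it by the presentation of the problem file, and
determine the image of the virtual integral Burau representation in `GL (Fin (n+1)) ℤ`:
it consists exactly of the matrices all of whose row sums are `1` and whose reduction modulo `2`
is a permutation matrix.
-/

set_option autoImplicit false

namespace Pool.Agent.Results.MP_e5baee_al.BurauImage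

open Matrix

/-- The generators of the virtual braid group on `n + 1` strands: `sigma i` is the classical
crossing, and `tau i` the virtual crossing, of the strands `i` and `i + 1`
(that is, `i.castSucc` and `i.succ` in `Fin (n + 1)`). -/
inductive VGen (n : ℕ) : Type
  | sigma : Fin n → VGen n
  | tau : Fin n → VGen n

/-- The classical generator as an element of the free group. -/
def fs {n : ℕ} (i : Fin n) : FreeGroup (VGen n) := FreeGroup.of (VGen.sigma i)

/-- The virtual generator as an element of the free group. -/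
def ft {n : ℕ} (i : Fin n) : FreeGroup (VGen n) := FreeGroup.of (VGen.tau i)

/-- The defining relations of the virtual braid group on `n + 1` strands:
`VRel n u v` says that `u = v` is one of the defining relations. -/
inductive VRel (n : ℕ) : FreeGroup (VGen n) → FreeGroup (VGen n) → Prop
  | sigma_braid (i j : Fin n) (h : (i : ℕ) + 1 = (j : ℕ)) :
      VRel n (fs i * fs j * fs i) (fs j * fs i * fs j)
  | sigma_comm (i j : Fin n) (h : (i : ℕ) + 2 ≤ (j : ℕ) ∨ (j : ℕ) + 2 ≤ (i : ℕ)) :
      VRel n (fs i * fs j) (fs j * fs i)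
  | tau_sq (i : Fin n) : VRel n (ft i * ft i) 1
  | tau_braid (i j : Fin n) (h : (i : ℕ) + 1 = (j : ℕ)) :
      VRel n (ft i * ft j * ft i) (ft j * ft i * ft j)
  | tau_comm (i j : Fin n) (h : (i : ℕ) + 2 ≤ (j : ℕ) ∨ (j : ℕ) + 2 ≤ (i : ℕ)) :
      VRel n (ft i * ft j) (ft j * ft i)
  | mixed_comm (i j : Fin n) (h : (i : ℕ) + 2 ≤ (j : ℕ) ∨ (j : ℕ) + 2 ≤ (i : ℕ)) :
      VRel n (fs i * ft j) (ft j * fs i)
  | mixed (i j : Fin n) (h : (i : ℕ) + 1 = (j : ℕ)) :
      VRel n (ft i * ft j * fs i) (fs j * ft i * ft j)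

/-- The set of relators `u * v⁻¹` of the virtual braid group on `n + 1` strands. -/
def vRels (n : ℕ) : Set (FreeGroup (VGen n)) := {r | ∃ u v, VRel n u v ∧ r = u * v⁻¹}

/-- The virtual braid group on `n + 1` strands. -/
abbrev VB (n : ℕ) : Type := PresentedGroup (vRels n)

/-- The classical generator of the virtual braid group. -/
def VB.sigma {n : ℕ} (i : Fin n) : VB n := PresentedGroup.of (VGen.sigma i)

/-- The virtual generator of the virtual braid group. -/
def VB.tau {n : ℕ} (i : Fin n) : VB n := PresentedGroup.of (VGen.tau i)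

/-- The identity matrix with the block on the rows and columns `i, i+1` replaced by
the matrix `!![p, q; r, s]`. -/
def block {n : ℕ} (i : Fin n) (p q r s : ℤ) : Matrix (Fin (n + 1)) (Fin (n + 1)) ℤ :=
  Matrix.of fun a b =>
    if a = i.castSucc ∧ b = i.castSucc then p
    else if a = i.castSucc ∧ b = i.succ then q
    else if a = i.succ ∧ b = i.castSucc then r
    else if a = i.succ ∧ b = i.succ then s
    else if a = b then 1
    else 0

section core

variable {N : ℕ}

/-- reflection matrix -/
def Rm (i j : Fin N) : Matrix (Fin N) (Fin N) ℤ :=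
  1 + (Matrix.single i j 2 - Matrix.single i i 2)

theorem mul_Rm_apply (M : Matrix (Fin N) (Fin N) ℤ) (i j a b : Fin N) :
    (M * Rm i j) a b = M a b + ((if b = j then 2 * M a i else 0) - (if b = i then 2 * M a i else 0)) := by
  unfold Rm
  rw [mul_add, mul_one, mul_sub, Matrix.add_apply, Matrix.sub_apply]
  congr 1
  congr 1
  · split_ifs with h
    · subst h; rw [Matrix.mul_single_apply_same]; ring
    · rw [Matrix.mul_single_apply_of_ne]; exact h
  · split_ifs with h
    · subst h; rw [Matrix.mul_single_apply_same]; ring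
    · rw [Matrix.mul_single_apply_of_ne]; exact h

theorem Rm_apply (i j a b : Fin N) :
    Rm i j a b = (1 : Matrix (Fin N) (Fin N) ℤ) a b +
      ((if b = j then 2 * (1 : Matrix (Fin N) (Fin N) ℤ) a i else 0)
        - (if b = i then 2 * (1 : Matrix (Fin N) (Fin N) ℤ) a i else 0)) := by
  rw [← mul_Rm_apply, one_mul]

theorem Rm_mul_self (i j : Fin N) : Rm i j * Rm i j = 1 := by
  ext a b
  rw [mul_Rm_apply, Rm_apply, Rm_apply]
  by_cases h : i = j
  · subst h; simp
  · by_cases h1 : b = j
    · subst h1
      have h' : b ≠ i := fun e => h e.symm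
      simp [h, h']
      ring
    · by_cases h2 : b = i
      · subst h2
        simp [h]
        ring
      · simp [h1, h2]

def R (i j : Fin N) : (Matrix (Fin N) (Fin N) ℤ)ˣ :=
  ⟨Rm i j, Rm i j, Rm_mul_self i j, Rm_mul_self i j⟩

structure Good (M : Matrix (Fin N) (Fin N) ℤ) : Prop where
  row : ∀ i, ∑ j, M i j = 1
  par : ∀ i j, (2:ℤ) ∣ M i j - (1 : Matrix (Fin N) (Fin N) ℤ) i j

theorem Good.mulR {M : Matrix (Fin N) (Fin N) ℤ} (h : Good M) (i j : Fin N) : Good (M * Rm i j) := by
  constructor
  · intro a
    simp_rw [mul_Rm_apply]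
    rw [Finset.sum_add_distrib, Finset.sum_sub_distrib]
    simp [h.row a]
  · intro a b
    rw [mul_Rm_apply]
    have := h.par a b
    have h2 : (2:ℤ) ∣ ((if b = j then 2 * M a i else 0) - (if b = i then 2 * M a i else 0)) := by
      split_ifs <;> simp
    have h3 := dvd_add this h2
    rw [add_sub_right_comm]
    exact h3

def UnitRows (k : ℕ) (M : Matrix (Fin N) (Fin N) ℤ) : Prop :=
  ∀ i : Fin N, (i:ℕ) < k → ∀ j, M i j = (1 : Matrix (Fin N) (Fin N) ℤ) i j

theorem UnitRows.mulR {k : ℕ} {M : Matrix (Fin N) (Fin N) ℤ} (h : UnitRows k M) (i j : Fin N)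
    (hi : k ≤ i) : UnitRows k (M * Rm i j) := by
  intro a ha b
  rw [mul_Rm_apply]
  have : M a i = 0 := by
    rw [h a ha i, Matrix.one_apply_ne]
    intro e; subst e; omega
  rw [this, h a ha b]
  simp

theorem mem_of_mul_R_mem {S : Subgroup (Matrix (Fin N) (Fin N) ℤ)ˣ} (hS : ∀ i j, R i j ∈ S)
    (M : (Matrix (Fin N) (Fin N) ℤ)ˣ) (i j : Fin N) (h : M * R i j ∈ S) : M ∈ S :=
  (Subgroup.mul_mem_cancel_right S (hS i j)).1 h

theorem Good.odd {M : Matrix (Fin N) (Fin N) ℤ} (h : Good M) (k : Fin N) : M k k % 2 = 1 := by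
  have := h.par k k
  rw [Matrix.one_apply_eq] at this
  omega

theorem Good.even {M : Matrix (Fin N) (Fin N) ℤ} (h : Good M) {k j : Fin N} (hj : k ≠ j) : M k j % 2 = 0 := by
  have := h.par k j
  rw [Matrix.one_apply_ne hj] at this
  omega

/-- Case C -/
theorem stageC {S : Subgroup (Matrix (Fin N) (Fin N) ℤ)ˣ} (hS : ∀ i j, R i j ∈ S)
    (k : Fin N)
    (IH : ∀ M : (Matrix (Fin N) (Fin N) ℤ)ˣ, Good M.val → UnitRows ((k:ℕ)+1) M.val → M ∈ S) :
    ∀ (T : ℕ) (M : (Matrix (Fin N) (Fin N) ℤ)ˣ), Good M.val → UnitRows (k:ℕ) M.val →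
      M.val k k = 1 → (∀ j, k < j → M.val k j = 0) → (∑ j, (M.val k j).natAbs = T) → M ∈ S := by
  intro T
  induction T using Nat.strong_induction_on with
  | _ T ih =>
  intro M hg hu h1 h0 hT
  by_cases hz : ∀ j, j < k → M.val k j = 0
  · apply IH M hg
    intro a ha b
    rcases Nat.lt_succ_iff_lt_or_eq.1 ha with h | h
    · exact hu a h b
    · have : a = k := Fin.ext h
      subst this
      rcases lt_trichotomy b a with h | h | h
      · rw [hz b h, Matrix.one_apply_ne]; exact (ne_of_lt h).symm
      · subst h; rw [h1, Matrix.one_apply_eq]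
      · rw [h0 b h, Matrix.one_apply_ne]; exact (ne_of_lt h)
  · push Not at hz
    obtain ⟨j0, hj0, hj0'⟩ := hz
    -- sum of others is zero
    have hsum : ∑ j ∈ Finset.univ.erase k, M.val k j = 0 := by
      have := hg.row k
      rw [← Finset.add_sum_erase _ _ (Finset.mem_univ k), h1] at this
      linarith
    have hpos : ∃ j, j ≠ k ∧ 0 < M.val k j := by
      by_contra hcon
      push Not at hcon
      have : ∑ j ∈ Finset.univ.erase k, M.val k j < 0 := by
        apply Finset.sum_neg'
        · intro i hi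
          exact hcon i (Finset.ne_of_mem_erase hi)
        · refine ⟨j0, Finset.mem_erase.2 ⟨ne_of_lt hj0, Finset.mem_univ _⟩, ?_⟩
          exact lt_of_le_of_ne (hcon j0 (ne_of_lt hj0)) hj0'
      omega
    have hneg : ∃ j, j ≠ k ∧ M.val k j < 0 := by
      by_contra hcon
      push Not at hcon
      have : 0 < ∑ j ∈ Finset.univ.erase k, M.val k j := by
        apply Finset.sum_pos' 
        · intro i hi
          exact hcon i (Finset.ne_of_mem_erase hi)
        · refine ⟨j0, Finset.mem_erase.2 ⟨ne_of_lt hj0, Finset.mem_univ _⟩, ?_⟩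
          exact lt_of_le_of_ne (hcon j0 (ne_of_lt hj0)) (Ne.symm hj0')
      omega
    obtain ⟨p, hpk, hp⟩ := hpos
    obtain ⟨q, hqk, hq⟩ := hneg
    have hpq : p ≠ q := by rintro rfl; omega
    have hp2 := hg.even (k := k) (j := p) (Ne.symm hpk)
    have hq2 := hg.even (k := k) (j := q) (Ne.symm hqk)
    have hpl : p < k := by
      rcases lt_trichotomy p k with h | h | h
      · exact h
      · exact absurd h hpk
      · have := h0 p h; omega
    have hql : q < k := by
      rcases lt_trichotomy q k with h | h | h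
      · exact h
      · exact absurd h hqk
      · have := h0 q h; omega
    have hentry : ∀ b, ((M * R k q * R k p).val) k b =
        M.val k b + (if b = q then 2 else 0) - (if b = p then 2 else 0) := by
      intro b
      show ((M.val * Rm k q) * Rm k p) k b = _
      rw [mul_Rm_apply, mul_Rm_apply, mul_Rm_apply]
      rw [h1]
      have hkq : k ≠ q := Ne.symm hqk
      have hkp : k ≠ p := Ne.symm hpk
      simp only [hkq, if_false, if_true]
      by_cases hbk : b = k
      · subst hbk
        simp [hkq, hkp]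
      · simp only [hbk, if_false]
        split_ifs <;> ring
    apply mem_of_mul_R_mem hS M k q
    apply mem_of_mul_R_mem hS _ k p
    have hg' : Good (M * R k q * R k p).val := (hg.mulR k q).mulR k p
    have hu' : UnitRows (k:ℕ) (M * R k q * R k p).val := (hu.mulR k q le_rfl).mulR k p le_rfl
    refine ih (∑ j, ((M * R k q * R k p).val k j).natAbs) ?_ (M * R k q * R k p) hg' hu' ?_ ?_ rfl
    · rw [← hT]
      apply Finset.sum_lt_sum
      · intro b _
        rw [hentry]
        by_cases hbq : b = q
        · subst hbq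
          rw [if_pos rfl, if_neg (Ne.symm hpq)]
          omega
        · by_cases hbp : b = p
          · subst hbp
            rw [if_neg hbq, if_pos rfl]
            omega
          · rw [if_neg hbq, if_neg hbp]
            simp
      · refine ⟨p, Finset.mem_univ _, ?_⟩
        rw [hentry, if_neg hpq, if_pos rfl]
        omega
    · rw [hentry, h1, if_neg (Ne.symm hqk), if_neg (Ne.symm hpk)]; ring
    · intro j hj
      rw [hentry, h0 j hj, if_neg, if_neg]
      · ring
      · rintro rfl; exact absurd hpl (not_lt.2 hj.le)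
      · rintro rfl; exact absurd hql (not_lt.2 hj.le)

def Am (k : Fin N) (M : Matrix (Fin N) (Fin N) ℤ) : ℕ := ∑ j, if k ≤ j then (M k j).natAbs else 0

theorem inv_unitRows {k : ℕ} (M : (Matrix (Fin N) (Fin N) ℤ)ˣ) (h : UnitRows k M.val) :
    UnitRows k (M⁻¹).val := by
  intro a ha b
  have h1 : (M.val * (M⁻¹).val) a b = (1 : Matrix (Fin N) (Fin N) ℤ) a b := by
    rw [← Units.val_mul, mul_inv_cancel]; rfl
  rw [← h1, Matrix.mul_apply]
  rw [Finset.sum_eq_single a]
  · rw [h a ha a, Matrix.one_apply_eq, one_mul]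
  · intro c _ hc
    rw [h a ha c, Matrix.one_apply_ne (Ne.symm hc), zero_mul]
  · intro h; exact absurd (Finset.mem_univ _) h

/-- Stage for k>0 -/
theorem stageD {S : Subgroup (Matrix (Fin N) (Fin N) ℤ)ˣ} (hS : ∀ i j, R i j ∈ S)
    (k l : Fin N) (hl : l < k)
    (IH : ∀ M : (Matrix (Fin N) (Fin N) ℤ)ˣ, Good M.val → UnitRows ((k:ℕ)+1) M.val → M ∈ S) :
    ∀ (T : ℕ) (M : (Matrix (Fin N) (Fin N) ℤ)ˣ), Good M.val → UnitRows (k:ℕ) M.val →
      Am k M.val = T → M ∈ S := by
  intro T
  induction T using Nat.strong_induction_on with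
  | _ T ih =>
  intro M hg hu hT
  by_cases h : ∃ i j, k ≤ i ∧ k ≤ j ∧ i ≠ j ∧ M.val k i ≠ 0 ∧ (M.val k i).natAbs < (M.val k j).natAbs
  · obtain ⟨i, j, hi, hj, hij, hne, hlt⟩ := h
    by_cases hs : M.val k i * M.val k j < 0
    · apply mem_of_mul_R_mem hS M i j
      have hg' : Good (M * R i j).val := (hg.mulR i j)
      have hu' : UnitRows (k:ℕ) (M * R i j).val := (hu.mulR i j hi)
      refine ih (Am k (M * R i j).val) ?_ _ hg' hu' rfl
      rw [← hT]
      have hentry : ∀ b, (M * R i j).val k b = M.val k b + ((if b = j then 2 * M.val k i else 0)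
          - (if b = i then 2 * M.val k i else 0)) := fun b => mul_Rm_apply _ _ _ _ _
      unfold Am
      apply Finset.sum_lt_sum
      · intro b _
        rw [hentry]
        by_cases hkb : k ≤ b
        · rw [if_pos hkb, if_pos hkb]
          by_cases hbj : b = j
          · subst hbj
            rw [if_pos rfl, if_neg (Ne.symm hij)]
            rcases lt_or_gt_of_ne hne with h1 | h1
            · have : 0 < M.val k b := by nlinarith
              omega
            · have : M.val k b < 0 := by nlinarith
              omega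
          · by_cases hbi : b = i
            · subst hbi
              rw [if_neg hbj, if_pos rfl]
              omega
            · rw [if_neg hbi, if_neg hbj]; simp
        · rw [if_neg hkb, if_neg hkb]
      · refine ⟨j, Finset.mem_univ _, ?_⟩
        rw [hentry, if_pos hj, if_pos hj, if_pos rfl, if_neg (Ne.symm hij)]
        rcases lt_or_gt_of_ne hne with h1 | h1
        · have : 0 < M.val k j := by nlinarith
          omega
        · have : M.val k j < 0 := by nlinarith
          omega
    · have hil : i ≠ l := by rintro rfl; exact absurd hl (not_lt.2 hi)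
      have hjl : j ≠ l := by rintro rfl; exact absurd hl (not_lt.2 hj)
      apply mem_of_mul_R_mem hS M i l
      apply mem_of_mul_R_mem hS _ i j
      have hg' : Good (M * R i l * R i j).val := (hg.mulR i l).mulR i j
      have hu' : UnitRows (k:ℕ) (M * R i l * R i j).val := (hu.mulR i l hi).mulR i j hi
      refine ih (Am k (M * R i l * R i j).val) ?_ _ hg' hu' rfl
      rw [← hT]
      have hentry : ∀ b, (M * R i l * R i j).val k b = M.val k b + (if b = l then 2 * M.val k i else 0)
          - (if b = j then 2 * M.val k i else 0) := by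
        intro b
        show ((M.val * Rm i l) * Rm i j) k b = _
        rw [mul_Rm_apply, mul_Rm_apply, mul_Rm_apply]
        simp only [hil, if_false, if_true]
        by_cases hbi : b = i
        · subst hbi
          simp [hil, hij]
          ring
        · simp only [hbi, if_false]
          split_ifs <;> ring
      have hpos : 0 < M.val k i * M.val k j := by
        rcases lt_trichotomy (M.val k i * M.val k j) 0 with h1 | h1 | h1
        · exact absurd h1 hs
        · rcases mul_eq_zero.1 h1 with h2 | h2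
          · exact absurd h2 hne
          · rw [h2] at hlt; simp at hlt
        · exact h1
      unfold Am
      apply Finset.sum_lt_sum
      · intro b _
        rw [hentry]
        by_cases hkb : k ≤ b
        · have hbl : b ≠ l := by rintro rfl; exact absurd hl (not_lt.2 hkb)
          rw [if_pos hkb, if_pos hkb, if_neg hbl]
          by_cases hbj : b = j
          · subst hbj
            rw [if_pos rfl]
            rcases lt_or_gt_of_ne hne with h1 | h1
            · have : M.val k b < 0 := by nlinarith
              omega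
            · have : 0 < M.val k b := by nlinarith
              omega
          · rw [if_neg hbj]; simp
        · rw [if_neg hkb, if_neg hkb]
      · refine ⟨j, Finset.mem_univ _, ?_⟩
        rw [hentry, if_pos hj, if_pos hj, if_neg hjl, if_pos rfl]
        rcases lt_or_gt_of_ne hne with h1 | h1
        · have : M.val k j < 0 := by nlinarith
          omega
        · have : 0 < M.val k j := by nlinarith
          omega
  · push Not at h
    have hodd := hg.odd k
    have hz : ∀ j, k < j → M.val k j = 0 := by
      intro j hj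
      by_contra hne
      have h1 := h j k hj.le le_rfl (ne_of_gt hj) hne
      have h2 := h k j le_rfl hj.le (ne_of_lt hj) (by omega)
      have h3 := hg.even (k := k) (j := j) (ne_of_lt hj)
      omega
    have hinv := inv_unitRows M hu
    have hprod : M.val k k * (M⁻¹).val k k = 1 := by
      have h1 : (M.val * (M⁻¹).val) k k = (1 : Matrix (Fin N) (Fin N) ℤ) k k := by
        rw [← Units.val_mul, mul_inv_cancel]; rfl
      rw [Matrix.one_apply_eq, Matrix.mul_apply, Finset.sum_eq_single k] at h1
      · exact h1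
      · intro c _ hc
        rcases lt_or_gt_of_ne hc with h2 | h2
        · rw [hinv c h2 k, Matrix.one_apply_ne hc, mul_zero]
        · rw [hz c h2, zero_mul]
      · intro h; exact absurd (Finset.mem_univ _) h
    rcases Int.isUnit_iff.1 (IsUnit.of_mul_eq_one _ hprod) with h1 | h1
    · exact stageC hS k IH _ M hg hu h1 hz rfl
    · apply mem_of_mul_R_mem hS M k l
      have hg' : Good (M * R k l).val := (hg.mulR k l)
      have hu' : UnitRows (k:ℕ) (M * R k l).val := (hu.mulR k l le_rfl)
      refine stageC hS k IH _ _ hg' hu' ?_ ?_ rfl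
      · show (M.val * Rm k l) k k = 1
        rw [mul_Rm_apply, h1, if_neg (ne_of_gt hl), if_pos rfl]; ring
      · intro j hj
        show (M.val * Rm k l) k j = 0
        rw [mul_Rm_apply, hz j hj, if_neg, if_neg]
        · ring
        · exact ne_of_gt hj
        · exact ne_of_gt (hl.trans hj)

/-- Stage for k=0 -/
theorem stageE {S : Subgroup (Matrix (Fin N) (Fin N) ℤ)ˣ} (hS : ∀ i j, R i j ∈ S)
    (k : Fin N) (hk : (k:ℕ) = 0)
    (IH : ∀ M : (Matrix (Fin N) (Fin N) ℤ)ˣ, Good M.val → UnitRows ((k:ℕ)+1) M.val → M ∈ S) :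
    ∀ (T : ℕ) (M : (Matrix (Fin N) (Fin N) ℤ)ˣ), Good M.val → UnitRows (k:ℕ) M.val →
      ∑ j, (M.val k j).natAbs = T → M ∈ S := by
  intro T
  induction T using Nat.strong_induction_on with
  | _ T ih =>
  intro M hg hu hT
  by_cases h : ∃ i j, i ≠ j ∧ M.val k i * M.val k j < 0 ∧ (M.val k i).natAbs < (M.val k j).natAbs
  · obtain ⟨i, j, hij, hs, hlt⟩ := h
    have hne : M.val k i ≠ 0 := by intro h; rw [h] at hs; simp at hs
    apply mem_of_mul_R_mem hS M i j
    have hg' : Good (M * R i j).val := (hg.mulR i j)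
    have hu' : UnitRows (k:ℕ) (M * R i j).val := (hu.mulR i j (by omega))
    refine ih (∑ b, ((M * R i j).val k b).natAbs) ?_ _ hg' hu' rfl
    rw [← hT]
    have hentry : ∀ b, (M * R i j).val k b = M.val k b + ((if b = j then 2 * M.val k i else 0)
        - (if b = i then 2 * M.val k i else 0)) := fun b => mul_Rm_apply _ _ _ _ _
    apply Finset.sum_lt_sum
    · intro b _
      rw [hentry]
      by_cases hbj : b = j
      · subst hbj
        rw [if_pos rfl, if_neg (Ne.symm hij)]
        rcases lt_or_gt_of_ne hne with h1 | h1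
        · have : 0 < M.val k b := by nlinarith
          omega
        · have : M.val k b < 0 := by nlinarith
          omega
      · by_cases hbi : b = i
        · subst hbi
          rw [if_neg hbj, if_pos rfl]
          omega
        · rw [if_neg hbi, if_neg hbj]; simp
    · refine ⟨j, Finset.mem_univ _, ?_⟩
      rw [hentry, if_pos rfl, if_neg (Ne.symm hij)]
      rcases lt_or_gt_of_ne hne with h1 | h1
      · have : 0 < M.val k j := by nlinarith
        omega
      · have : M.val k j < 0 := by nlinarith
        omega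
  · push Not at h
    have hodd := hg.odd k
    have hne0 : M.val k k ≠ 0 := by omega
    have hsame : ∀ j, j ≠ k → 0 ≤ M.val k k * M.val k j := by
      intro j hj
      by_contra hcon
      push Not at hcon
      have h1 := h k j (Ne.symm hj) hcon
      have h2 := h j k hj (by rwa [mul_comm])
      have h3 := hg.even (k := k) (j := j) (Ne.symm hj)
      omega
    have hrow := hg.row k
    rw [← Finset.add_sum_erase _ _ (Finset.mem_univ k)] at hrow
    rcases lt_or_gt_of_ne hne0 with h0 | h0
    · exfalso
      have : ∑ j ∈ Finset.univ.erase k, M.val k j ≤ 0 := by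
        apply Finset.sum_nonpos
        intro j hj
        have := hsame j (Finset.ne_of_mem_erase hj)
        nlinarith
      omega
    · have hnn : ∀ j ∈ Finset.univ.erase k, 0 ≤ M.val k j := by
        intro j hj
        have := hsame j (Finset.ne_of_mem_erase hj)
        nlinarith
      have hs0 := Finset.sum_nonneg hnn
      have h1 : M.val k k = 1 := by omega
      have hs1 : ∑ j ∈ Finset.univ.erase k, M.val k j = 0 := by omega
      have hz := (Finset.sum_eq_zero_iff_of_nonneg hnn).1 hs1
      refine stageC hS k IH _ M hg hu h1 ?_ rfl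
      intro j hj
      exact hz j (Finset.mem_erase.2 ⟨ne_of_gt hj, Finset.mem_univ _⟩)

theorem all_mem {S : Subgroup (Matrix (Fin N) (Fin N) ℤ)ˣ} (hS : ∀ i j, R i j ∈ S) :
    ∀ (d k : ℕ), k + d = N → ∀ M : (Matrix (Fin N) (Fin N) ℤ)ˣ, Good M.val → UnitRows k M.val → M ∈ S := by
  intro d
  induction d with
  | zero =>
    intro k hk M hg hu
    have : M = 1 := by
      ext a b
      rw [hu a (by omega) b]; rfl
    rw [this]; exact one_mem S
  | succ d ih =>
    intro k hk M hg hu
    have hkN : k < N := by omega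
    have IH : ∀ M : (Matrix (Fin N) (Fin N) ℤ)ˣ, Good M.val → UnitRows (((⟨k, hkN⟩ : Fin N):ℕ)+1) M.val → M ∈ S :=
      fun M => ih (k+1) (by omega) M
    rcases Nat.eq_zero_or_pos k with h | h
    · exact stageE hS ⟨k, hkN⟩ h IH _ M hg hu rfl
    · exact stageD hS ⟨k, hkN⟩ ⟨0, by omega⟩ h IH _ M hg hu rfl

theorem good_mem {S : Subgroup (Matrix (Fin N) (Fin N) ℤ)ˣ} (hS : ∀ i j, R i j ∈ S)
    (M : (Matrix (Fin N) (Fin N) ℤ)ˣ) (hg : Good M.val) : M ∈ S :=
  all_mem hS N 0 (by omega) M hg (fun a ha => absurd ha (Nat.not_lt_zero _))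


end core

/-! ### Permutation matrices -/

section perm

variable {N : ℕ}

def pm (π : Equiv.Perm (Fin N)) : Matrix (Fin N) (Fin N) ℤ :=
  Matrix.of fun a b => if a = π b then 1 else 0

theorem mul_pm_apply (M : Matrix (Fin N) (Fin N) ℤ) (π : Equiv.Perm (Fin N)) (a b : Fin N) :
    (M * pm π) a b = M a (π b) := by
  rw [Matrix.mul_apply, Finset.sum_eq_single (π b)]
  · simp [pm]
  · intro c _ hc; simp [pm, hc]
  · intro h; exact absurd (Finset.mem_univ _) h

theorem pm_mul_apply (M : Matrix (Fin N) (Fin N) ℤ) (π : Equiv.Perm (Fin N)) (a b : Fin N) :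
    (pm π * M) (π a) b = M a b := by
  rw [Matrix.mul_apply, Finset.sum_eq_single a]
  · simp [pm]
  · intro c _ hc
    have : π a ≠ π c := fun h => hc (π.injective h).symm
    simp [pm, this]
  · intro h; exact absurd (Finset.mem_univ _) h

theorem pm_mul (π ρ : Equiv.Perm (Fin N)) : pm (π * ρ) = pm π * pm ρ := by
  ext a b
  rw [mul_pm_apply]
  rfl

theorem pm_one : pm (1 : Equiv.Perm (Fin N)) = 1 := by
  ext a b
  by_cases h : a = b
  · subst h; simp [pm]
  · simp [pm, h]

/-- permutation matrices, as a homomorphism -/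
def P : Equiv.Perm (Fin N) →* (Matrix (Fin N) (Fin N) ℤ)ˣ where
  toFun π := ⟨pm π, pm π⁻¹, by rw [← pm_mul, mul_inv_cancel, pm_one],
    by rw [← pm_mul, inv_mul_cancel, pm_one]⟩
  map_one' := by ext a b; simp [pm_one]
  map_mul' π ρ := by ext a b; simp [pm_mul]

theorem P_val (π : Equiv.Perm (Fin N)) : (P π).val = pm π := rfl

theorem P_mul_R (π : Equiv.Perm (Fin N)) (i j : Fin N) : P π * R i j = R (π i) (π j) * P π := by
  apply Units.ext
  show pm π * Rm i j = Rm (π i) (π j) * pm π
  ext a b
  obtain ⟨a, rfl⟩ := π.surjective a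
  rw [mul_pm_apply, pm_mul_apply, Rm_apply, Rm_apply]
  simp only [Matrix.one_apply, π.injective.eq_iff]

theorem R_comm {a b c d : Fin N} (hac : a ≠ c) (had : a ≠ d) (hbc : b ≠ c) :
    R a b * R c d = R c d * R a b := by
  apply Units.ext
  show Rm a b * Rm c d = Rm c d * Rm a b
  ext x y
  rw [mul_Rm_apply, mul_Rm_apply, Rm_apply, Rm_apply, Rm_apply, Rm_apply]
  have hca := hac.symm
  have hcb := hbc.symm
  simp only [hac, had, hca, hcb, if_false]
  split_ifs <;> ring

theorem R_yb {a b c : Fin N} (hab : a ≠ b) (hac : a ≠ c) (hbc : b ≠ c) :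
    R a b * R a c * R b c = R b c * R a c * R a b := by
  apply Units.ext
  show Rm a b * Rm a c * Rm b c = Rm b c * Rm a c * Rm a b
  ext x y
  have hba := hab.symm
  have hca := hac.symm
  have hcb := hbc.symm
  simp only [mul_Rm_apply, Rm_apply, hab, hac, hbc, hba, if_false, if_true]
  by_cases h1 : y = a
  · subst h1; simp only [hab, hac, if_true, if_false]; ring
  · by_cases h2 : y = b
    · subst h2; simp only [hba, hbc, if_true, if_false]; ring
    · by_cases h3 : y = c
      · subst h3; simp only [hca, hcb, if_true, if_false]; ring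
      · simp only [h1, h2, h3, if_false]

end perm

/-! ### The representation -/

section rep

variable {n : ℕ}

/-- image of `tau i` -/
def tauU (i : Fin n) : (Matrix (Fin (n + 1)) (Fin (n + 1)) ℤ)ˣ :=
  P (Equiv.swap i.castSucc i.succ)

/-- image of `sigma i` -/
def sigmaU (i : Fin n) : (Matrix (Fin (n + 1)) (Fin (n + 1)) ℤ)ˣ :=
  R i.castSucc i.succ * tauU i

theorem castSucc_ne_succ (i : Fin n) : i.castSucc ≠ i.succ := by
  intro h
  have := congrArg Fin.val h
  simp at this

theorem tauU_val (i : Fin n) : (tauU i).val = block i 0 1 1 0 := by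
  have hne := castSucc_ne_succ i
  have hne' := hne.symm
  ext a b
  show pm _ a b = _
  simp only [pm, block, Matrix.of_apply, Equiv.swap_apply_def]
  by_cases h1 : b = i.castSucc
  · subst h1
    by_cases h2 : a = i.castSucc
    · subst h2; simp [hne]
    · by_cases h3 : a = i.succ
      · subst h3; simp [hne']
      · simp [h2, h3]
  · by_cases h4 : b = i.succ
    · subst h4
      by_cases h2 : a = i.castSucc
      · subst h2; simp [hne']
      · by_cases h3 : a = i.succ
        · subst h3; simp [hne']
        · simp [h2, h3, hne']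
    · simp [h1, h4]

theorem sigmaU_val (i : Fin n) : (sigmaU i).val = block i 2 (-1) 1 0 := by
  have hne := castSucc_ne_succ i
  have hne' := hne.symm
  ext a b
  show (Rm i.castSucc i.succ * pm (Equiv.swap i.castSucc i.succ)) a b = _
  rw [mul_pm_apply, Rm_apply]
  simp only [block, Matrix.of_apply, Equiv.swap_apply_def, Matrix.one_apply]
  by_cases h1 : b = i.castSucc
  · subst h1
    by_cases h2 : a = i.castSucc
    · subst h2; simp [hne, hne']
    · by_cases h3 : a = i.succ
      · subst h3; simp [hne']
      · simp [h2, h3, hne']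
  · by_cases h4 : b = i.succ
    · subst h4
      by_cases h2 : a = i.castSucc
      · subst h2; simp [hne', hne]
      · by_cases h3 : a = i.succ
        · subst h3; simp [hne', hne]
        · simp [h2, h3, hne']
    · by_cases h2 : a = i.castSucc
      · subst h2
        simp [h1, h4, Ne.symm h1]
      · simp [h1, h4, h2]

theorem tau_rel_sq (i : Fin n) : tauU i * tauU i = 1 := by
  unfold tauU
  rw [← map_mul, Equiv.swap_mul_self, map_one]

/-- distinctness facts for consecutive generators -/
theorem succ_eq_castSucc {i j : Fin n} (h : (i : ℕ) + 1 = (j : ℕ)) : j.castSucc = i.succ := by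
  apply Fin.ext; simp; omega

theorem swap_braid {α : Type} [DecidableEq α] {a b c : α} (hab : a ≠ b) (hac : a ≠ c) (hbc : b ≠ c) :
    Equiv.swap a b * Equiv.swap b c * Equiv.swap a b
      = Equiv.swap b c * Equiv.swap a b * Equiv.swap b c := by
  have h1 := Equiv.swap_mul_swap_mul_swap (x := a) (y := b) (z := c) hab hac
  have h2 := Equiv.swap_mul_swap_mul_swap (x := c) (y := b) (z := a) hbc.symm hac.symm
  rw [h1, Equiv.swap_comm c a, ← h2, Equiv.swap_comm b a, Equiv.swap_comm c b]

theorem tau_rel_braid {i j : Fin n} (h : (i : ℕ) + 1 = (j : ℕ)) :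
    tauU i * tauU j * tauU i = tauU j * tauU i * tauU j := by
  unfold tauU
  rw [succ_eq_castSucc h]
  simp only [← map_mul]
  congr 1
  apply swap_braid
  · exact castSucc_ne_succ i
  · intro e; have := congrArg Fin.val e; simp at this; omega
  · intro e; have := congrArg Fin.val e; simp at this; omega

theorem far_ne {i j : Fin n} (h : (i : ℕ) + 2 ≤ (j : ℕ) ∨ (j : ℕ) + 2 ≤ (i : ℕ)) :
    i.castSucc ≠ j.castSucc ∧ i.castSucc ≠ j.succ ∧ i.succ ≠ j.castSucc ∧ i.succ ≠ j.succ := by
  refine ⟨?_, ?_, ?_, ?_⟩ <;> intro e <;> have := congrArg Fin.val e <;> simp at this <;> omega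

theorem swap_comm_far {α : Type} [DecidableEq α] {a b c d : α} (hac : a ≠ c) (had : a ≠ d)
    (hbc : b ≠ c) (hbd : b ≠ d) :
    Equiv.swap a b * Equiv.swap c d = Equiv.swap c d * Equiv.swap a b := by
  have h := Equiv.swap_apply_apply (Equiv.swap a b) c d
  rw [Equiv.swap_apply_of_ne_of_ne hac.symm hbc.symm,
    Equiv.swap_apply_of_ne_of_ne had.symm hbd.symm] at h
  exact (mul_inv_eq_iff_eq_mul.1 h.symm)

theorem tau_rel_comm {i j : Fin n} (h : (i : ℕ) + 2 ≤ (j : ℕ) ∨ (j : ℕ) + 2 ≤ (i : ℕ)) :
    tauU i * tauU j = tauU j * tauU i := by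
  obtain ⟨h1, h2, h3, h4⟩ := far_ne h
  unfold tauU
  simp only [← map_mul]
  rw [swap_comm_far h1 h2 h3 h4]

theorem tau_mul_R (i : Fin n) (a b : Fin (n+1)) : tauU i * R a b =
    R (Equiv.swap i.castSucc i.succ a) (Equiv.swap i.castSucc i.succ b) * tauU i :=
  P_mul_R _ a b

theorem rel_mixed_comm {i j : Fin n} (h : (i : ℕ) + 2 ≤ (j : ℕ) ∨ (j : ℕ) + 2 ≤ (i : ℕ)) :
    sigmaU i * tauU j = tauU j * sigmaU i := by
  obtain ⟨h1, h2, h3, h4⟩ := far_ne h
  unfold sigmaU
  rw [← mul_assoc, tau_mul_R, Equiv.swap_apply_of_ne_of_ne h1 h2, Equiv.swap_apply_of_ne_of_ne h3 h4,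
    mul_assoc, mul_assoc, tau_rel_comm h]

theorem sigma_rel_comm {i j : Fin n} (h : (i : ℕ) + 2 ≤ (j : ℕ) ∨ (j : ℕ) + 2 ≤ (i : ℕ)) :
    sigmaU i * sigmaU j = sigmaU j * sigmaU i := by
  obtain ⟨h1, h2, h3, h4⟩ := far_ne h
  have e1 : sigmaU i * sigmaU j = R i.castSucc i.succ * R j.castSucc j.succ * (tauU i * tauU j) := by
    unfold sigmaU
    rw [mul_assoc, ← mul_assoc (tauU i), tau_mul_R,
      Equiv.swap_apply_of_ne_of_ne h1.symm h3.symm, Equiv.swap_apply_of_ne_of_ne h2.symm h4.symm]
    simp only [mul_assoc]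
  have e2 : sigmaU j * sigmaU i = R j.castSucc j.succ * R i.castSucc i.succ * (tauU j * tauU i) := by
    unfold sigmaU
    rw [mul_assoc, ← mul_assoc (tauU j), tau_mul_R,
      Equiv.swap_apply_of_ne_of_ne h1 h2, Equiv.swap_apply_of_ne_of_ne h3 h4]
    simp only [mul_assoc]
  rw [e1, e2, tau_rel_comm h, R_comm h1 h2 h3]

theorem rel_mixed {i j : Fin n} (h : (i : ℕ) + 1 = (j : ℕ)) :
    tauU i * tauU j * sigmaU i = sigmaU j * tauU i * tauU j := by
  have hij := succ_eq_castSucc h
  have hab : i.castSucc ≠ i.succ := castSucc_ne_succ i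
  have hac : i.castSucc ≠ j.succ := by
    intro e; have := congrArg Fin.val e; simp at this; omega
  have hbc : i.succ ≠ j.succ := by
    intro e; have := congrArg Fin.val e; simp at this; omega
  have e1 : tauU i * tauU j * sigmaU i = R i.succ j.succ * (tauU i * tauU j * tauU i) := by
    unfold sigmaU
    rw [mul_assoc, ← mul_assoc (tauU j), tau_mul_R, hij,
      Equiv.swap_apply_of_ne_of_ne hab hac, Equiv.swap_apply_left, mul_assoc, ← mul_assoc (tauU i),
      tau_mul_R, Equiv.swap_apply_left, Equiv.swap_apply_of_ne_of_ne hac.symm hbc.symm]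
    simp only [mul_assoc]
  rw [e1, tau_rel_braid h]
  unfold sigmaU
  rw [hij]
  simp only [mul_assoc]

theorem sigma_rel_braid {i j : Fin n} (h : (i : ℕ) + 1 = (j : ℕ)) :
    sigmaU i * sigmaU j * sigmaU i = sigmaU j * sigmaU i * sigmaU j := by
  have hij := succ_eq_castSucc h
  have hab : i.castSucc ≠ i.succ := castSucc_ne_succ i
  have hac : i.castSucc ≠ j.succ := by
    intro e; have := congrArg Fin.val e; simp at this; omega
  have hbc : i.succ ≠ j.succ := by
    intro e; have := congrArg Fin.val e; simp at this; omega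
  have e1 : sigmaU i * sigmaU j * sigmaU i =
      R i.castSucc i.succ * R i.castSucc j.succ * R i.succ j.succ * (tauU i * tauU j * tauU i) := by
    have : sigmaU i * sigmaU j * sigmaU i =
        R i.castSucc i.succ * (tauU i * R j.castSucc j.succ) * (tauU j * R i.castSucc i.succ) * tauU i := by
      unfold sigmaU; simp only [mul_assoc]
    rw [this, tau_mul_R, tau_mul_R, hij, Equiv.swap_apply_right,
      Equiv.swap_apply_of_ne_of_ne hac.symm hbc.symm,
      Equiv.swap_apply_of_ne_of_ne hab hac, Equiv.swap_apply_left]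
    have : R i.castSucc i.succ * (R i.castSucc j.succ * tauU i) * (R i.castSucc j.succ * tauU j) * tauU i
      = R i.castSucc i.succ * R i.castSucc j.succ * (tauU i * R i.castSucc j.succ) * tauU j * tauU i := by
      simp only [mul_assoc]
    rw [this, tau_mul_R, Equiv.swap_apply_left, Equiv.swap_apply_of_ne_of_ne hac.symm hbc.symm]
    simp only [mul_assoc]
  have e2 : sigmaU j * sigmaU i * sigmaU j =
      R i.succ j.succ * R i.castSucc j.succ * R i.castSucc i.succ * (tauU j * tauU i * tauU j) := by
    have : sigmaU j * sigmaU i * sigmaU j =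
        R j.castSucc j.succ * (tauU j * R i.castSucc i.succ) * (tauU i * R j.castSucc j.succ) * tauU j := by
      unfold sigmaU; simp only [mul_assoc]
    rw [this, tau_mul_R, tau_mul_R, hij, Equiv.swap_apply_right,
      Equiv.swap_apply_of_ne_of_ne hac.symm hbc.symm,
      Equiv.swap_apply_of_ne_of_ne hab hac, Equiv.swap_apply_left]
    have : R i.succ j.succ * (R i.castSucc j.succ * tauU j) * (R i.castSucc j.succ * tauU i) * tauU j
      = R i.succ j.succ * R i.castSucc j.succ * (tauU j * R i.castSucc j.succ) * tauU i * tauU j := by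
      simp only [mul_assoc]
    rw [this, tau_mul_R, hij, Equiv.swap_apply_of_ne_of_ne hab hac, Equiv.swap_apply_right]
    simp only [mul_assoc]
  rw [e1, e2, tau_rel_braid h, R_yb hab hac hbc]

/-- images of the generators -/
def genU : VGen n → (Matrix (Fin (n + 1)) (Fin (n + 1)) ℤ)ˣ
  | VGen.sigma i => sigmaU i
  | VGen.tau i => tauU i

theorem genU_rel : ∀ r ∈ vRels n, FreeGroup.lift (genU (n := n)) r = 1 := by
  rintro r ⟨u, v, huv, rfl⟩
  rw [map_mul, map_inv, mul_inv_eq_one]
  cases huv with
  | sigma_braid i j h =>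
    simpa [fs, ft, genU] using sigma_rel_braid h
  | sigma_comm i j h =>
    simpa [fs, ft, genU] using sigma_rel_comm h
  | tau_sq i =>
    simpa [fs, ft, genU] using tau_rel_sq i
  | tau_braid i j h =>
    simpa [fs, ft, genU] using tau_rel_braid h
  | tau_comm i j h =>
    simpa [fs, ft, genU] using tau_rel_comm h
  | mixed_comm i j h =>
    simpa [fs, ft, genU] using rel_mixed_comm h
  | mixed i j h =>
    simpa [fs, ft, genU] using rel_mixed h

/-- The virtual integral Burau representation. -/
def rho (n : ℕ) : VB n →* GL (Fin (n + 1)) ℤ := PresentedGroup.toGroup genU_rel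

theorem rho_sigma (i : Fin n) : rho n (VB.sigma i) = sigmaU i := by
  unfold rho VB.sigma
  rw [PresentedGroup.toGroup.of]; rfl

theorem rho_tau (i : Fin n) : rho n (VB.tau i) = tauU i := by
  unfold rho VB.tau
  rw [PresentedGroup.toGroup.of]; rfl

theorem P_mem_range (π : Equiv.Perm (Fin (n + 1))) : P π ∈ (rho n).range := by
  have h : (⊤ : Submonoid (Equiv.Perm (Fin (n + 1)))) ≤ ((rho n).range.comap P).toSubmonoid := by
    rw [← Equiv.Perm.mclosure_swap_castSucc_succ, Submonoid.closure_le]
    rintro _ ⟨i, rfl⟩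
    exact ⟨VB.tau i, rho_tau i⟩
  exact h (Submonoid.mem_top π)

theorem exists_R_mem (i : Fin n) : R i.castSucc i.succ ∈ (rho n).range := by
  have h1 : sigmaU i ∈ (rho n).range := ⟨VB.sigma i, rho_sigma i⟩
  have h2 : tauU i ∈ (rho n).range := ⟨VB.tau i, rho_tau i⟩
  exact (Subgroup.mul_mem_cancel_right _ h2).1 h1

theorem R_self (a : Fin (n + 1)) : R a a = 1 := by
  apply Units.ext
  show Rm a a = 1
  simp [Rm]

theorem R_mem_range (a b : Fin (n + 1)) : R a b ∈ (rho n).range := by
  by_cases hab : a = b
  · subst hab; rw [R_self]; exact one_mem _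
  · -- here `n > 0`
    have hn : 0 < n := by
      rcases Nat.eq_zero_or_pos n with h | h
      · subst h; exact absurd (Fin.ext (by omega)) hab
      · exact h
    let i : Fin n := ⟨0, hn⟩
    have hne := castSucc_ne_succ i
    -- a permutation moving `i, i+1` to `a, b`
    obtain ⟨π, h1, h2⟩ : ∃ π : Equiv.Perm (Fin (n + 1)), π i.castSucc = a ∧ π i.succ = b := by
      let π1 : Equiv.Perm (Fin (n + 1)) := Equiv.swap i.castSucc a
      have h3 : π1 i.castSucc = a := Equiv.swap_apply_left _ _
      have h4 : π1 i.succ ≠ a := by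
        rw [← h3]; intro e; exact hne (π1.injective e).symm
      refine ⟨Equiv.swap (π1 i.succ) b * π1, ?_, ?_⟩
      · rw [Equiv.Perm.mul_apply, h3]
        exact Equiv.swap_apply_of_ne_of_ne h4.symm hab
      · rw [Equiv.Perm.mul_apply]
        exact Equiv.swap_apply_left _ _
    have h5 : R a b = P π * R i.castSucc i.succ * (P π)⁻¹ := by
      rw [P_mul_R, h1, h2, mul_inv_cancel_right]
    rw [h5]
    exact mul_mem (mul_mem (P_mem_range π) (exists_R_mem i)) (inv_mem (P_mem_range π))

/-- The matrices with row sums one and reduction modulo two a permutation matrix. -/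
def Q (N : ℕ) : Subgroup (Matrix (Fin N) (Fin N) ℤ)ˣ where
  carrier := {M | (∀ i, ∑ j, M.val i j = 1) ∧
    ∃ π : Equiv.Perm (Fin N), ∀ i j, ((M.val i j : ℤ) : ZMod 2) = if j = π i then 1 else 0}
  one_mem' := by
    refine ⟨fun i => ?_, 1, fun i j => ?_⟩
    · simp [Matrix.one_apply]
    · by_cases h : i = j
      · subst h; simp
      · simp [Matrix.one_apply_ne h, Ne.symm h]
  mul_mem' := by
    rintro A B ⟨hA, π, hπ⟩ ⟨hB, ρ, hρ⟩
    refine ⟨fun i => ?_, ρ * π, fun i j => ?_⟩
    · rw [Units.val_mul]
      simp_rw [Matrix.mul_apply]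
      rw [Finset.sum_comm]
      simp_rw [← Finset.mul_sum, hB, mul_one]
      exact hA i
    · rw [Units.val_mul, Matrix.mul_apply]
      push_cast
      simp_rw [hπ, hρ]
      rw [Finset.sum_eq_single (π i)]
      · rw [if_pos rfl, one_mul]; rfl
      · intro c _ hc; simp [hc]
      · intro h; exact absurd (Finset.mem_univ _) h
  inv_mem' := by
    rintro A ⟨hA, π, hπ⟩
    have hinv : (A⁻¹).val * A.val = 1 := by rw [← Units.val_mul, inv_mul_cancel]; rfl
    refine ⟨fun i => ?_, π⁻¹, fun i j => ?_⟩
    · have h1 : ∑ j, ((A⁻¹).val * A.val) i j = 1 := by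
        rw [hinv]; simp [Matrix.one_apply]
      simp_rw [Matrix.mul_apply] at h1
      rw [Finset.sum_comm] at h1
      simp_rw [← Finset.mul_sum, hA, mul_one] at h1
      exact h1
    · have h1 : ((((A⁻¹).val * A.val) i (π j) : ℤ) : ZMod 2) =
        (((1 : Matrix (Fin N) (Fin N) ℤ) i (π j) : ℤ) : ZMod 2) := by rw [hinv]
      rw [Matrix.mul_apply, Int.cast_sum] at h1
      simp_rw [Int.cast_mul, hπ] at h1
      rw [Finset.sum_eq_single j] at h1
      · rw [if_pos rfl, mul_one] at h1
        rw [h1]
        by_cases h2 : i = π j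
        · subst h2; simp
        · rw [Matrix.one_apply_ne h2, if_neg]
          · simp
          · rintro rfl; apply h2; simp
      · intro c _ hc
        rw [if_neg, mul_zero]
        intro e; exact hc (π.injective e).symm
      · intro h; exact absurd (Finset.mem_univ _) h

theorem P_mem_Q {N : ℕ} (π : Equiv.Perm (Fin N)) : P π ∈ Q N := by
  refine ⟨fun i => ?_, π⁻¹, fun i j => ?_⟩
  · show ∑ j, pm π i j = 1
    rw [Finset.sum_eq_single (π⁻¹ i)]
    · simp [pm]
    · intro c _ hc
      have : i ≠ π c := by rintro rfl; apply hc; simp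
      simp [pm, this]
    · intro h; exact absurd (Finset.mem_univ _) h
  · show ((pm π i j : ℤ) : ZMod 2) = _
    by_cases h : i = π j
    · subst h; simp [pm]
    · have : j ≠ π⁻¹ i := by rintro rfl; apply h; simp
      simp only [pm, Matrix.of_apply, h, this, if_false]
      simp

theorem good_one {N : ℕ} : Good (1 : Matrix (Fin N) (Fin N) ℤ) := by
  constructor
  · intro i; simp [Matrix.one_apply]
  · intro i j; simp

theorem R_mem_Q {N : ℕ} (a b : Fin N) : R a b ∈ Q N := by
  have hg : Good (Rm a b) := by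
    have := good_one.mulR a b
    rwa [one_mul] at this
  refine ⟨hg.row, 1, fun i j => ?_⟩
  show ((Rm a b i j : ℤ) : ZMod 2) = _
  have h := hg.par i j
  have h2 : ((Rm a b i j - (1 : Matrix (Fin N) (Fin N) ℤ) i j : ℤ) : ZMod 2) = 0 :=
    (ZMod.intCast_zmod_eq_zero_iff_dvd _ 2).2 (by exact_mod_cast h)
  push_cast at h2
  rw [sub_eq_zero] at h2
  rw [h2]
  by_cases h3 : i = j
  · subst h3; simp
  · rw [Matrix.one_apply_ne h3, if_neg]
    · simp
    · simpa using Ne.symm h3

theorem range_le_Q (n : ℕ) : (rho n).range ≤ Q (n + 1) := by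
  rintro _ ⟨x, rfl⟩
  have := PresentedGroup.generated_by (vRels n) ((Q (n + 1)).comap (rho n)) ?_ x
  · exact this
  · rintro (i | i)
    · show rho n (VB.sigma i) ∈ Q (n + 1)
      rw [rho_sigma]
      exact mul_mem (R_mem_Q _ _) (P_mem_Q _)
    · show rho n (VB.tau i) ∈ Q (n + 1)
      rw [rho_tau]
      exact P_mem_Q _

theorem Q_le_range (n : ℕ) : Q (n + 1) ≤ (rho n).range := by
  rintro M ⟨hM, π, hπ⟩
  have h1 : M * P π ∈ (rho n).range := by
    apply good_mem R_mem_range
    constructor
    · intro i
      show ∑ j, (M.val * pm π) i j = 1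
      simp_rw [mul_pm_apply]
      rw [Equiv.sum_comp π (fun j => M.val i j)]
      exact hM i
    · intro i j
      show (2:ℤ) ∣ (M.val * pm π) i j - _
      rw [mul_pm_apply]
      have h2 := hπ i (π j)
      have h3 : (((M.val i (π j) - (1 : Matrix (Fin (n+1)) (Fin (n+1)) ℤ) i j : ℤ)) : ZMod 2) = 0 := by
        push_cast
        rw [h2]
        by_cases h4 : i = j
        · subst h4; simp
        · have h5 : π j ≠ π i := fun e => h4 (π.injective e).symm
          rw [Matrix.one_apply_ne h4, if_neg h5]; simp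
      exact_mod_cast (ZMod.intCast_zmod_eq_zero_iff_dvd _ 2).1 h3
  exact (Subgroup.mul_mem_cancel_right _ (P_mem_range π)).1 h1

end rep

theorem mod_two_iff {N : ℕ} (M : Matrix (Fin N) (Fin N) ℤ) (π : Equiv.Perm (Fin N)) :
    M.map (Int.cast : ℤ → ZMod 2) = π.permMatrix (ZMod 2) ↔
      ∀ i j, ((M i j : ℤ) : ZMod 2) = if j = π i then 1 else 0 := by
  rw [← Matrix.ext_iff]
  apply forall_congr'; intro i
  apply forall_congr'; intro j
  have : (π.permMatrix (ZMod 2)) i j = if j = π i then (1 : ZMod 2) else 0 := by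
    simp [Equiv.Perm.permMatrix, PEquiv.toMatrix_apply, Equiv.toPEquiv_apply, eq_comm]
  rw [this]
  rfl

/-- **The image of the virtual integral Burau representation.**
There is a homomorphism `ρ` from the virtual braid group on `n + 1` strands to `GL (Fin (n+1)) ℤ`
which sends `σ_i` to `I ⊕ (2, -1; 1, 0) ⊕ I` and `τ_i` to `I ⊕ (0, 1; 1, 0) ⊕ I`
(it is unique since the `σ_i` and `τ_i` generate the group) and its image consists exactly of the
matrices in `GL (Fin (n+1)) ℤ` all of whose row sums are `1` and whose reduction modulo `2` is a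
permutation matrix. -/
theorem result (n : ℕ) :
    ∃! ρ : VB n →* GL (Fin (n + 1)) ℤ,
      ((∀ i : Fin n, (ρ (VB.sigma i)).val = block i 2 (-1) 1 0) ∧
       (∀ i : Fin n, (ρ (VB.tau i)).val = block i 0 1 1 0)) ∧
      ∀ M : GL (Fin (n + 1)) ℤ, M ∈ ρ.range ↔
        (∀ i, ∑ j, M.val i j = 1) ∧
        ∃ π : Equiv.Perm (Fin (n + 1)),
          M.val.map (Int.cast : ℤ → ZMod 2) = π.permMatrix (ZMod 2) := by
  refine ⟨rho n, ⟨⟨?_, ?_⟩, ?_⟩, ?_⟩
  · intro i; rw [rho_sigma, sigmaU_val]
  · intro i; rw [rho_tau, tauU_val]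
  · intro M
    simp_rw [mod_two_iff]
    exact ⟨fun h => range_le_Q n h, fun h => Q_le_range n h⟩
  · rintro ρ ⟨⟨h1, h2⟩, -⟩
    apply PresentedGroup.ext
    rintro (i | i)
    · apply Units.ext
      show (ρ (VB.sigma i)).val = (rho n (VB.sigma i)).val
      rw [h1, rho_sigma, sigmaU_val]
    · apply Units.ext
      show (ρ (VB.tau i)).val = (rho n (VB.tau i)).val
      rw [h2, rho_tau, tauU_val]

end Pool.Agent.Results.MP_e5baee_al.BurauImage
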